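import Pool.Agent.R957.BRW.Tools

/-!
# Irreducible branching random walks with finitely many fixed points

No irreducible branching random walk has `|E_G| < |F_G| < ∞`.

`pop x ω n` (generation `n` started from one particle at `x`, as a finitely supported function),
`law μ` (independent offspring vectors, those of particles at `y` with law `μ y`) and `gen μ` (the
generating function `G`) are those of the starting library `Pool.Agent.H632R3.BranchGen`;
`qExt`, `extSet`, `fixSet`, `Irr` are in `Pool.Agent.R957.BRW.Defs`.
-/

namespace Pool.Agent.Results.MP_087ef2_pr.FiniteFixedPointSets

open Pool.Agent.R957.BRW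

/-- If an irreducible branching random walk has only finitely many fixed points `z ∈ [0,1]^X` of
its generating function, then every fixed point is an extinction probability vector; more
precisely, the only fixed points are `q(·,X)` and `1`. -/
theorem result (X : Type) [Countable X] (μ : X → PMF (X →₀ ℕ)) (hirr : Irr μ)
    (hfin : (fixSet μ).Finite) :
    fixSet μ = extSet μ ∧ fixSet μ = {qExt μ Set.univ, 1} := by
  constructor
  · by_contra hne
    have h := main μ (fun h => hne h.symm)
    have h2 := Cardinal.lt_aleph0_iff_set_finite.mpr hfin
    rw [h] at h2
    exact absurd h2 (not_lt.mpr Cardinal.aleph0_le_continuum)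
  · rcases irr_dichotomy μ hirr with h | h
    · exact h
    · have h2 := Cardinal.lt_aleph0_iff_set_finite.mpr hfin
      rw [h] at h2
      exact absurd h2 (not_lt.mpr Cardinal.aleph0_le_continuum)

end Pool.Agent.Results.MP_087ef2_pr.FiniteFixedPointSets
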